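import Pool.Agent.Q23.ZD.Dig
import Pool.Agent.TH900.XM.Meas

/-!
# The digits of the linear combinations of `ζ(11), …, ζ(27)` and arbitrary numbers

A rational number has digits of bounded linear complexity (the least order of a linear recurrence which the first `L`
digits satisfy) in every base. We consider all numbers `x = b_1 ζ(11) + … + b_9 ζ(27) + e_1 t_1 + … + e_r t_r`, where
`t_1, …, t_r` are arbitrary real numbers (for instance other odd zeta values, or monomials in `π` and odd zeta values) and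
the coefficients are integers of absolute value at most a power of the scale, and the first `⌊Λ / log g⌋` digits in the
base `g`. At each scale `Λ` the coefficient vectors `(b, e)` for which in some base `g` the linear complexity is smaller
than `(1 / (1628 (r + 9) + 2) - ε) Λ / log g` lie in a proper subspace of `ℚ ^ (r + 9)`.

The proof uses the simultaneous measure of irrationality of `ζ(11), …, ζ(27)` of the starting files
(`Pool/Agent/Results/MP_4f096c_nt/MeasureZeta11To27.lean`), elimination (`Pool/Agent/Q189/RK/Point.lean`) and the approximations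
given by a short recurrence of the digits, uniformly in the base (`Pool/Agent/Q29/DigDirM.lean`).
-/

set_option autoImplicit false

namespace Pool.Agent.Results.MP_4f096c_nt.DigitsOfCombinations

open Finset

/-- the `i`-th digit of `x` after the point in base `g` -/
noncomputable def digit (g : ℕ) (x : ℝ) (i : ℕ) : ℤ := ⌊x * (g : ℝ) ^ i⌋ % (g : ℤ)

/-- the linear complexity of the first `L` digits of `x` in base `g`: the least `m` such that for some
rational numbers `c_0, …, c_(m-1)` one has `s_(i+m) = c_0 s_i + … + c_(m-1) s_(i+m-1)` for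
`1 ≤ i ≤ L - m`, where `s_i` is the `i`-th digit -/
noncomputable def complexity (g : ℕ) (x : ℝ) (L : ℕ) : ℕ :=
  sInf {m | ∃ c : ℕ → ℚ, ∀ i : ℕ, 1 ≤ i → i + m ≤ L →
    (digit g x (i + m) : ℚ) = ∑ j ∈ range m, c j * (digit g x (i + j) : ℚ)}

/-- the function `m + C √((m+1) log (m+2))` -/
noncomputable def F (C : ℝ) (m : ℕ) : ℝ :=
  m + C * Real.sqrt (((m : ℝ) + 1) * Real.log ((m : ℝ) + 2))

/-- `ζ(i) = ∑ 1/(n+1)^i` -/
noncomputable def zeta (i : ℕ) : ℝ := ∑' n : ℕ, 1 / ((n : ℝ) + 1) ^ i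

/-- the number `b_0 ζ(11) + b_1 ζ(13) + … + b_8 ζ(27) + e_1 t_1 + … + e_r t_r` -/
noncomputable def comb {r : ℕ} (t : Fin r → ℝ) (b : Fin 9 → ℤ) (e : Fin r → ℤ) : ℝ :=
  ∑ j : Fin 9, (b j : ℝ) * zeta (2 * j + 11) + ∑ j, (e j : ℝ) * t j

theorem meas : ∃ c : ℝ, 0 < c ∧ ∀ (p : Fin 9 → ℤ) (q : ℕ), 0 < q →
    ∃ j : Fin 9, c / (q : ℝ) ^ 1628 ≤ |zeta (2 * j + 11) - (p j : ℝ) / q| := by
  obtain ⟨c, hc, h⟩ := Pool.Agent.TH900.XM.measure
  refine ⟨c, hc, fun p q hq => ?_⟩
  obtain ⟨i, hi, h1⟩ := h (fun i => p (Fin.ofNat 9 ((i - 11) / 2))) q hq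
  have key : ∀ j : Fin 9, i = 2 * (j : ℕ) + 11 →
      ∃ j : Fin 9, c / (q : ℝ) ^ 1628 ≤ |zeta (2 * j + 11) - (p j : ℝ) / q| := by
    intro j hj
    refine ⟨j, ?_⟩
    have h2 : (Fin.ofNat 9 ((i - 11) / 2)) = j := by
      rw [hj]
      apply Fin.ext
      rw [Fin.val_ofNat]
      have := j.2
      omega
    rw [h2] at h1
    rw [← hj]
    exact h1
  simp only [Finset.mem_insert, Finset.mem_singleton] at hi
  rcases hi with rfl | rfl | rfl | rfl | rfl | rfl | rfl | rfl | rfl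
  · exact key 0 rfl
  · exact key 1 rfl
  · exact key 2 rfl
  · exact key 3 rfl
  · exact key 4 rfl
  · exact key 5 rfl
  · exact key 6 rfl
  · exact key 7 rfl
  · exact key 8 rfl

/-- **The digits of the linear combinations of `ζ(11), …, ζ(27)` and arbitrary numbers.** (1) For each `r` there is `C`
such that for all real `t_1, …, t_r`, all `r + 9` linearly independent integer vectors `(b_k, e_k)` of height at most `M`,
all bases `g_k` and lengths `L_k`, if `F(N_k) log g_k ≤ α` for the linear complexity `N_k` of the first `L_k` digits of the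
`k`-th number in base `g_k`, then `min L_k log g_k ≤ (1628 (r + 9) + 2) α + (1628 (r + 9) + 1) log M`. (2) For `ε > 0` there
is `δ > 0` such that for all `Λ ≥ 1`, all `t`, all such vectors of height at most `e^(δ Λ)` and all bases `g_k ≤ e^(δ Λ)` at
least one of the complexities of the first `⌊Λ / log g_k⌋` digits is at least
`(1 / (1628 (r + 9) + 2) - ε) Λ / log g_k`. -/
theorem result :
    (∀ r : ℕ, ∃ C : ℝ, 0 < C ∧ ∀ (t : Fin r → ℝ) (b : Fin (r + 9) → Fin 9 → ℤ)
      (e : Fin (r + 9) → Fin r → ℤ), LinearIndependent ℤ (fun k => (b k, e k)) → ∀ M : ℝ, 1 ≤ M →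
      (∀ k j, |(b k j : ℝ)| ≤ M) → (∀ k j, |(e k j : ℝ)| ≤ M) → ∀ g : Fin (r + 9) → ℕ, (∀ k, 2 ≤ g k) →
      ∀ (L : Fin (r + 9) → ℕ) (Λ α : ℝ), (∀ k, Λ ≤ L k * Real.log (g k)) →
        (∀ k, F C (complexity (g k) (comb t (b k) (e k)) (L k)) * Real.log (g k) ≤ α) →
          Λ ≤ (1628 * (r + 9) + 2) * α + (1628 * (r + 9) + 1) * Real.log M) ∧
    (∀ (r : ℕ) (ε : ℝ), 0 < ε → ∃ δ : ℝ, 0 < δ ∧ ∀ (Λ : ℝ), 1 ≤ Λ → ∀ (t : Fin r → ℝ)
      (b : Fin (r + 9) → Fin 9 → ℤ) (e : Fin (r + 9) → Fin r → ℤ), LinearIndependent ℤ (fun k => (b k, e k)) →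
      (∀ k j, |(b k j : ℝ)| ≤ Real.exp (δ * Λ)) → (∀ k j, |(e k j : ℝ)| ≤ Real.exp (δ * Λ)) →
      ∀ g : Fin (r + 9) → ℕ, (∀ k, 2 ≤ g k) → (∀ k, (g k : ℝ) ≤ Real.exp (δ * Λ)) →
        ∃ k, (1 / (1628 * (r + 9) + 2) - ε) * (Λ / Real.log (g k)) ≤
          complexity (g k) (comb t (b k) (e k)) ⌊Λ / Real.log (g k)⌋₊) := by
  obtain ⟨c, hc, hm⟩ := meas
  constructor
  · intro r
    obtain ⟨C, hC, h⟩ := Pool.Agent.Q23.ZD.point_digits (fun j : Fin 9 => zeta (2 * j + 11)) 1628 (by norm_num) c hc hm r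
    refine ⟨C, hC, fun t b e hli M hM hb he g hg L Λ α hΛ hα => ?_⟩
    refine (h t b e hli M hM hb he g hg L Λ α hΛ hα).trans (le_of_eq ?_)
    push_cast
    ring
  · intro r ε hε
    obtain ⟨δ, hδ, h⟩ := Pool.Agent.Q23.ZD.point_scale (by norm_num) (fun j : Fin 9 => zeta (2 * j + 11)) 1628
      (by norm_num) c hc hm r ε hε
    refine ⟨δ, hδ, fun Λ hΛ t b e hli hb he g hg hgL => ?_⟩
    obtain ⟨k, hk⟩ := h Λ hΛ t b e hli hb he g hg hgL
    refine ⟨k, ?_⟩
    have e1 : (1 : ℝ) / (1628 * (r + 9) + 2) = 1 / ((r + ((9 : ℕ) : ℝ)) * ((1628 : ℕ) : ℝ) + 2) := by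
      push_cast
      ring
    rw [e1]
    exact hk

end Pool.Agent.Results.MP_4f096c_nt.DigitsOfCombinations
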