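import Mathlib
import Pool.Agent.Q47.DG.Abs
import Pool.Agent.TH900.XM.Meas

/-!
# Pairs from two dense sets and the numbers `ζ(11), ζ(13), …, ζ(27)`, at every scale

One of the nine numbers `ζ(11), ζ(13), …, ζ(27)` is irrational (starting files). Here is a distributional form for
arbitrary dense sets: for all `K`, `η > 0` and `A ≥ 1` there are `κ > 0` and `N₀` such that for every `N ≥ N₀` there is an
odd number `j` from `11` to `27` such that for all `M` from `N` to `N ^ A` the numbers `b ζ(j) a ^ k c + R_c(a) + y_a` with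
`(a, c)` in the product of ANY two dense sets of integers, arbitrary real numbers `y_a` and arbitrary real polynomials
`R_c` of degree less than `k ≤ K` are uniformly distributed modulo one, with a power saving. In particular (`k = 1`) the
multiples of `ζ(j)` by the products `a c`, for instance of two primes or of two integers from given dense sets.

The proof uses the measure for the simultaneous rational approximations of the nine numbers (`Pool/Agent/TH900/`), an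
inverse theorem for the sums of Weyl (`H373R2/NB`) and a bilinear estimate (Cauchy-Schwarz in short blocks, `Pool/Agent/Q47/DG/EqdK`).
-/

set_option autoImplicit false

namespace Pool.Agent.Results.MP_4f096c_nt.PairsFromDenseSets

open Finset Polynomial

/-- Polynomials over two dense sets are uniformly distributed at the scale `M`, with a power saving: for all integers
`b ≠ 0` with `|b| ≤ M ^ κ`, all degrees `1 ≤ k ≤ K`, all integers `H ≥ M ^ η`, ALL sets `A` of integers in `[0, M)` and `B` of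
integers in `[0, H)` with `|A| |B| ≥ M ^ (1 - κ) H`, all real numbers `y_a`, all real polynomials `R_c` of degree less than
`k` and all `0 ≤ u ≤ v ≤ 1`, the number of the pairs `(a, c) ∈ A × B` with the fractional part of
`b x a ^ k c + R_c(a) + y_a` in `[u, v)` is `(v - u) |A| |B|`, up to `|A| |B| M ^ (-κ)`. -/
def PGood (K : ℕ) (η κ : ℝ) (M : ℕ) (x : ℝ) : Prop :=
  ∀ b : ℤ, b ≠ 0 → |(b : ℝ)| ≤ (M : ℝ) ^ κ → ∀ k : ℕ, 1 ≤ k → k ≤ K → ∀ H : ℕ, (M : ℝ) ^ η ≤ H →
    ∀ A B : Finset ℕ, (∀ a ∈ A, a < M) → (∀ c ∈ B, c < H) → (M : ℝ) ^ (1 - κ) * H ≤ #A * #B →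
    ∀ (y : ℕ → ℝ) (R : ℕ → ℝ[X]), (∀ c, (R c).degree < k) → ∀ u v : ℝ, 0 ≤ u → u ≤ v → v ≤ 1 →
      |(#{i ∈ A ×ˢ B | u ≤ Int.fract (b * x * i.1 ^ k * i.2 + (R i.2).eval (i.1 : ℝ) + y i.1) ∧
          Int.fract (b * x * i.1 ^ k * i.2 + (R i.2).eval (i.1 : ℝ) + y i.1) < v} : ℝ) -
        (v - u) * (#A * #B)| ≤ #A * #B * (M : ℝ) ^ (-κ)

theorem pgood_iff (K : ℕ) (η κ : ℝ) (M : ℕ) (x : ℝ) : PGood K η κ M x ↔ Pool.Agent.Q47.DG.PGood K η κ M x := Iff.rfl

/-- At every large scale one of the numbers `ζ(j)`, `11 ≤ j ≤ 27` odd, has the property. -/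
theorem result (K : ℕ) (η : ℝ) (hη : 0 < η) (A : ℝ) (hA : 1 ≤ A) : ∃ κ : ℝ, 0 < κ ∧ ∃ N₀ : ℕ, ∀ N : ℕ, N₀ ≤ N →
    ∃ j : ℕ, Odd j ∧ 11 ≤ j ∧ j ≤ 27 ∧
      ∀ M : ℕ, N ≤ M → (M : ℝ) ≤ (N : ℝ) ^ A → PGood K η κ M (∑' n : ℕ, 1 / ((n : ℝ) + 1) ^ j) := by
  obtain ⟨c, hc, h⟩ := Pool.Agent.TH900.XM.measure
  obtain ⟨κ, hκ, N₀, hN₀⟩ := Pool.Agent.Q47.DG.Abs.simul_good _ (Pool.Agent.Q47.DG.Abs.engine_prod K η hη) _ 1628
    (fun j => ∑' n : ℕ, 1 / ((n : ℝ) + 1) ^ j) c hc h A hA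
  refine ⟨κ, hκ, N₀, fun N hN => ?_⟩
  obtain ⟨j, hj, h1⟩ := hN₀ N hN
  refine ⟨j, ?_, ?_, ?_, fun M hNM hMA => (pgood_iff _ _ _ _ _).2 (h1 M hNM hMA)⟩
  · fin_cases hj <;> decide
  · fin_cases hj <;> decide
  · fin_cases hj <;> decide

end Pool.Agent.Results.MP_4f096c_nt.PairsFromDenseSets
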